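import Mathlib
import Pool.Agent.W25.UN.FixC
import Pool.Agent.W25.UB.Stm2

/-! Project UB (helper25), part TWa: the first sum with the new parameters. -/

set_option autoImplicit false

namespace Pool.Agent.W22.UB

open Finset Filter Topology
open Pool.Agent.H410R2 hiding GP GP_prof GP_cut_some GP_cut_none GP_lip gg_pos gg_le_one gg_anti ee_bound ee_nonneg gg_lip LB_gg LB_ee Sums exists_sums yx wx wxi Br sum_GP_none sum_GP_some sum_GP_some_ee sum_GP_some_one sum_GPr_none sum_GPr_some S1_final QI_final S2_final w_abs_le wmax gg ee I1 I2 IE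
open Pool.Agent.H361R2.GM
open Pool.Agent.H362R2.CM
open Pool.Agent.W25.UN Pool.Agent.W25.UB

variable {k : ℕ}

/-- exponent of the presieve level -/
noncomputable def Jb (N B : ℕ) : ℕ := Nat.clog 2 (Nat.clog 2 (DB (2 * N) B))

theorem DB_le (N B : ℕ) (hN : 1 ≤ N) : (DB (2 * N) B : ℝ) ≤ (Real.log (2 * N : ℕ)) ^ B := by
  unfold DB
  have h0 : 0 ≤ Real.log (2 * N : ℕ) := Real.log_natCast_nonneg _
  have h1 : 0 ≤ (Real.log (2 * N : ℕ)) ^ B := by positivity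
  have h2 := Nat.ceil_lt_add_one h1
  have h3 : ((⌈(Real.log (2 * N : ℕ)) ^ B⌉₊ - 1 : ℕ) : ℝ) ≤ (Real.log (2 * N : ℕ)) ^ B := by
    rcases Nat.eq_zero_or_pos ⌈(Real.log (2 * N : ℕ)) ^ B⌉₊ with h | h
    · rw [h]
      simpa using h1
    · rw [Nat.cast_sub (by omega : 1 ≤ ⌈(Real.log (2 * N : ℕ)) ^ B⌉₊)]
      push_cast at h2 ⊢
      linarith
  exact h3

theorem DB_ge (N B : ℕ) : (Real.log (2 * N : ℕ)) ^ B - 1 ≤ (DB (2 * N) B : ℝ) := by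
  unfold DB
  have h1 := Nat.le_ceil ((Real.log (2 * N : ℕ)) ^ B)
  rcases Nat.eq_zero_or_pos ⌈(Real.log (2 * N : ℕ)) ^ B⌉₊ with h | h
  · rw [h] at h1 ⊢
    push_cast at h1 ⊢
    linarith
  · rw [Nat.cast_sub (by omega : 1 ≤ ⌈(Real.log (2 * N : ℕ)) ^ B⌉₊)]
    push_cast at h1 ⊢
    linarith

theorem ev_DB (B : ℕ) (hB : 1 ≤ B) (C : ℕ) : ∀ᶠ N : ℕ in atTop, C ≤ DB (2 * N) B := by
  filter_upwards [ev_log (C + 1), eventually_ge_atTop 1] with N hl hN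
  have h1 := DB_ge N B
  have h2 : Real.log N ≤ Real.log (2 * N : ℕ) := by
    apply Real.log_le_log (by exact_mod_cast hN)
    push_cast
    have : (0 : ℝ) ≤ N := Nat.cast_nonneg _
    linarith
  have hC : (0 : ℝ) ≤ C := Nat.cast_nonneg _
  have h3 : (1 : ℝ) ≤ Real.log (2 * N : ℕ) := by linarith
  have h4 : Real.log (2 * N : ℕ) ≤ (Real.log (2 * N : ℕ)) ^ B := le_self_pow₀ h3 (by omega)
  have h5 : (C : ℝ) ≤ (DB (2 * N) B : ℝ) := by linarith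
  exact_mod_cast h5

theorem DB_up (B : ℕ) : ∀ᶠ N : ℕ in atTop, (DB (2 * N) B : ℝ) ≤ 2 ^ B * (Real.log N) ^ B := by
  filter_upwards [ev_log 1, eventually_ge_atTop 2] with N hl hN
  refine (DB_le N B (by omega)).trans ?_
  rw [← mul_pow]
  apply pow_le_pow_left₀ (Real.log_natCast_nonneg _)
  have hN0 : (0 : ℝ) < N := by
    have : 0 < N := by omega
    exact_mod_cast this
  push_cast
  rw [Real.log_mul (by norm_num) hN0.ne']
  have := Real.log_two_lt_d9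
  linarith

theorem Jb_le (N B : ℕ) : DB (2 * N) B ≤ 2 ^ 2 ^ Jb N B := by
  unfold Jb
  calc DB (2 * N) B ≤ 2 ^ Nat.clog 2 (DB (2 * N) B) := Nat.le_pow_clog (by norm_num) _
    _ ≤ 2 ^ 2 ^ Nat.clog 2 (Nat.clog 2 (DB (2 * N) B)) :=
      Nat.pow_le_pow_right (by norm_num) (Nat.le_pow_clog (by norm_num) _)

theorem Jb_up (B : ℕ) (hB : 1 ≤ B) : ∀ᶠ N : ℕ in atTop,
    ((2 : ℝ) ^ 2 ^ Jb N B) ≤ (Real.log N) ^ (2 * B + 1) ∧
    ((Jb N B : ℝ) + 2) ≤ (Real.log N) ^ (2 * B + 2) := by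
  filter_upwards [ev_DB B hB 5, ev_log (4 * (2 ^ B) ^ 2 + 2), DB_up B] with N hD hl hDle
  set m := DB (2 * N) B with hm
  set m1 := Nat.clog 2 m with hm1
  have h1 : 2 ^ m1 ≤ 2 * m := by
    have h2 : 2 ^ m1.pred < m := Nat.pow_pred_clog_lt_self (by norm_num) (by omega)
    have h3 : 0 < m1 := Nat.clog_pos (by norm_num) (by omega)
    have h4 : m1 = m1.pred + 1 := by
      rw [Nat.pred_eq_sub_one]; omega
    rw [h4, pow_succ]
    omega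
  have hm12 : 2 ≤ m1 := by
    by_contra hc
    have h2 : m ≤ 2 ^ m1 := Nat.le_pow_clog (by norm_num) _
    have h3 : 2 ^ m1 ≤ 2 ^ 1 := Nat.pow_le_pow_right (by norm_num) (by omega)
    omega
  have h2 : 2 ^ Jb N B ≤ 2 * m1 := by
    have e : Jb N B = Nat.clog 2 m1 := rfl
    rw [e]
    have h2 : 2 ^ (Nat.clog 2 m1).pred < m1 := Nat.pow_pred_clog_lt_self (by norm_num) (by omega)
    have h3 : 0 < Nat.clog 2 m1 := Nat.clog_pos (by norm_num) (by omega)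
    have h4 : Nat.clog 2 m1 = (Nat.clog 2 m1).pred + 1 := by
      rw [Nat.pred_eq_sub_one]; omega
    rw [h4, pow_succ]
    omega
  have h3 : 2 ^ 2 ^ Jb N B ≤ 4 * m ^ 2 := by
    calc 2 ^ 2 ^ Jb N B ≤ 2 ^ (2 * m1) := Nat.pow_le_pow_right (by norm_num) h2
      _ = (2 ^ m1) ^ 2 := by rw [← pow_mul]; ring_nf
      _ ≤ (2 * m) ^ 2 := Nat.pow_le_pow_left h1 2
      _ = _ := by ring
  have hl0 : 0 ≤ Real.log N := by
    have : (0 : ℝ) ≤ 4 * (2 ^ B) ^ 2 := by positivity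
    linarith
  have h4 : ((2 : ℝ) ^ 2 ^ Jb N B) ≤ 4 * (2 ^ B * (Real.log N) ^ B) ^ 2 := by
    have h5 : (((2 ^ 2 ^ Jb N B : ℕ)) : ℝ) ≤ ((4 * m ^ 2 : ℕ) : ℝ) := by exact_mod_cast h3
    push_cast at h5
    refine h5.trans ?_
    gcongr
  have h5 : ((2 : ℝ) ^ 2 ^ Jb N B) ≤ (Real.log N) ^ (2 * B + 1) := by
    refine h4.trans ?_
    have h6 : (0 : ℝ) ≤ (Real.log N) ^ (2 * B) := by positivity
    calc 4 * (2 ^ B * (Real.log N) ^ B) ^ 2 = 4 * (2 ^ B) ^ 2 * (Real.log N) ^ (2 * B) := by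
          rw [mul_pow, ← pow_mul (Real.log N) B 2, mul_comm B 2]; ring
      _ ≤ Real.log N * (Real.log N) ^ (2 * B) := by
          apply mul_le_mul_of_nonneg_right _ h6
          linarith
      _ = _ := by ring
  refine ⟨h5, ?_⟩
  have h6 : Jb N B < 2 ^ Jb N B := Nat.lt_two_pow_self
  have h7 : 2 ^ Jb N B < 2 ^ 2 ^ Jb N B := Nat.lt_two_pow_self
  have h8 : ((Jb N B : ℕ) : ℝ) + 2 ≤ 2 * (2 : ℝ) ^ 2 ^ Jb N B := by
    have h9 : Jb N B + 2 ≤ 2 * 2 ^ 2 ^ Jb N B := by omega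
    exact_mod_cast h9
  refine h8.trans ?_
  have h10 : (0 : ℝ) ≤ (Real.log N) ^ (2 * B + 1) := by positivity
  have h11 : (0 : ℝ) ≤ 4 * (2 ^ B) ^ 2 := by positivity
  calc 2 * (2 : ℝ) ^ 2 ^ Jb N B ≤ 2 * (Real.log N) ^ (2 * B + 1) := by gcongr
    _ ≤ Real.log N * (Real.log N) ^ (2 * B + 1) := by
        apply mul_le_mul_of_nonneg_right _ h10
        linarith
    _ = _ := by ring

theorem ZZ_low' (k B' : ℕ) (V Δ W B L c l N D' ρ : ℝ) (hl : 1 ≤ l) (hW : 0 < W) (hρ : 0 < ρ)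
    (hL : L = ρ * l) (hD'0 : 0 < D') (hD' : D' ≤ l ^ (B' + 1))
    (hV : (1 / D') ^ (2 * (k + 1)) ≤ V)
    (hB : 1 / D' ≤ B) (hΔ : Δ = c * N) (hc : 0 < c) (hN : 0 ≤ N)
    (hbig : 48 * W / (c * ρ ^ (k + 1)) ≤ l) :
    N / l ^ ((3 * B' + 2) * (k + 1) + 1) ≤ ZZ k V Δ W B L := by
  have hl0 : 0 < l := by linarith
  have h1 : 1 / l ^ (B' + 1) ≤ 1 / D' := one_div_le_one_div_of_le hD'0 hD'
  have hB' : 1 / l ^ (B' + 1) ≤ B := h1.trans hB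
  have hV' : (1 / l ^ (B' + 1)) ^ (2 * (k + 1)) ≤ V := by
    refine le_trans ?_ hV
    gcongr
  have hBL : ρ / l ^ B' ≤ B * L := by
    rw [hL]
    calc ρ / l ^ B' = 1 / l ^ (B' + 1) * (ρ * l) := by
          rw [pow_succ]
          field_simp
      _ ≤ B * (ρ * l) := by gcongr
  have hBL0 : 0 ≤ ρ / l ^ B' := by positivity
  unfold ZZ
  have h2 : (1 / l ^ (B' + 1)) ^ (2 * (k + 1)) * (c * N) / W *
      ((ρ / l ^ B') / 48 * (ρ / l ^ B') ^ k) ≤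
      V * Δ / W * (B * (L / 48) * (B * L) ^ k) := by
    rw [hΔ]
    have h3 : (ρ / l ^ B') / 48 ≤ B * (L / 48) := by
      have : B * (L / 48) = B * L / 48 := by ring
      rw [this]
      gcongr
    have h4 : 0 ≤ V := le_trans (by positivity) hV'
    have h5 : 0 ≤ B * (L / 48) := le_trans (by positivity) h3
    gcongr
  refine le_trans ?_ h2
  have e : (1 / l ^ (B' + 1)) ^ (2 * (k + 1)) * (c * N) / W *
      ((ρ / l ^ B') / 48 * (ρ / l ^ B') ^ k) =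
      N / l ^ ((3 * B' + 2) * (k + 1) + 1) * (c * ρ ^ (k + 1) / (48 * W) * l) := by
    have e1 : (1 / l ^ (B' + 1)) ^ (2 * (k + 1)) = 1 / l ^ ((B' + 1) * (2 * (k + 1))) := by
      rw [div_pow, one_pow, ← pow_mul]
    have e2 : (ρ / l ^ B') / 48 * (ρ / l ^ B') ^ k = ρ ^ (k + 1) / (48 * l ^ (B' * (k + 1))) := by
      rw [div_pow, ← pow_mul]
      have : l ^ (B' * (k + 1)) = l ^ B' * l ^ (B' * k) := by rw [← pow_add]; congr 1; ring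
      rw [this, pow_succ]
      rw [div_div, div_mul_div_comm]
      congr 1
      · ring
      · ring
    have e3 : l ^ ((3 * B' + 2) * (k + 1) + 1) =
        l ^ ((B' + 1) * (2 * (k + 1))) * l ^ (B' * (k + 1)) * l := by
      rw [← pow_add, ← pow_succ]
      congr 1
      ring
    rw [e1, e2, e3]
    field_simp
  rw [e]
  apply le_mul_of_one_le_right (by positivity)
  rw [div_le_iff₀ (by positivity)] at hbig
  rw [div_mul_eq_mul_div, le_div_iff₀ (by positivity)]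
  linarith

/-- error of the first sum -/
theorem E1_small' (N A1 C1 b m3 J a₁ a₂ : ℕ) (ρ κ l E1 n0 : ℝ) (hl : l = Real.log N)
    (hl1 : 1 ≤ l) (hN : 1 ≤ N) (hκ : 0 < κ) (hJ1 : ((2 : ℝ) ^ 2 ^ J) ≤ l ^ a₁)
    (hJ2 : ((J : ℝ) + 2) ≤ l ^ a₂) (hE1 : E1 ≤ Real.exp (ρ * l / 48 + ρ * l) * l ^ m3)
    (hE0 : 0 ≤ E1) (hn0 : 1 ≤ n0 * Real.exp (4 * κ)) (hn1 : n0 * Real.exp (4 * κ) ≤ N)
    (hpoly : (16 / κ) * (Real.log N) ^ (a₂ + 2 * a₁ * (C1 * b) + 1 + 2 * m3 + A1) *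
      (N : ℝ) ^ (49 / 24 * ρ) ≤ (N : ℝ) ^ (1 : ℝ)) :
    2 * (((J : ℝ) + 2) * ((2 : ℝ) ^ 2 ^ J) ^ (2 * (C1 * b)) *
          (4 / κ * (Real.log (n0 * Real.exp (4 * κ)) + 1) * E1 ^ 2)) ≤ N / l ^ A1 := by
  have hN0 : (0 : ℝ) < N := by exact_mod_cast hN
  have hl0 : 0 < l := by linarith
  rw [le_div_iff₀ (by positivity)]
  rw [Real.rpow_one, ← hl] at hpoly
  refine le_trans ?_ hpoly
  have h1 : Real.log (n0 * Real.exp (4 * κ)) + 1 ≤ 2 * l := by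
    have := Real.log_le_log (by linarith) hn1
    rw [← hl] at this
    linarith
  have h10 : 0 ≤ Real.log (n0 * Real.exp (4 * κ)) + 1 := by
    have := Real.log_nonneg hn0
    linarith
  have h2 : ((2 : ℝ) ^ 2 ^ J) ^ (2 * (C1 * b)) ≤ l ^ (2 * a₁ * (C1 * b)) := by
    calc ((2 : ℝ) ^ 2 ^ J) ^ (2 * (C1 * b)) ≤ (l ^ a₁) ^ (2 * (C1 * b)) :=
          pow_le_pow_left₀ (by positivity) hJ1 _
      _ = l ^ (2 * a₁ * (C1 * b)) := by rw [← pow_mul]; congr 1; ring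
  have h3 : E1 ^ 2 ≤ (N : ℝ) ^ (49 / 24 * ρ) * l ^ (2 * m3) := by
    calc E1 ^ 2 ≤ (Real.exp (ρ * l / 48 + ρ * l) * l ^ m3) ^ 2 :=
          pow_le_pow_left₀ hE0 hE1 2
      _ = (N : ℝ) ^ (49 / 24 * ρ) * l ^ (2 * m3) := by
        rw [mul_pow, ← Real.exp_nat_mul, Real.rpow_def_of_pos hN0, ← hl, ← pow_mul]
        congr 1
        · congr 1
          push_cast
          ring
        · congr 1
          ring
  calc 2 * (((J : ℝ) + 2) * ((2 : ℝ) ^ 2 ^ J) ^ (2 * (C1 * b)) *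
          (4 / κ * (Real.log (n0 * Real.exp (4 * κ)) + 1) * E1 ^ 2)) * l ^ A1
      ≤ 2 * (l ^ a₂ * l ^ (2 * a₁ * (C1 * b)) *
          (4 / κ * (2 * l) * ((N : ℝ) ^ (49 / 24 * ρ) * l ^ (2 * m3)))) * l ^ A1 := by
        gcongr
    _ = (16 / κ) * l ^ (a₂ + 2 * a₁ * (C1 * b) + 1 + 2 * m3 + A1) *
          (N : ℝ) ^ (49 / 24 * ρ) := by
        rw [pow_add, pow_add, pow_add, pow_add, pow_one]
        ring

variable {α h : Fin k → ℤ} {D D' N v : ℕ} {P : Finset ℕ}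

/-- bound (I) -/
theorem fix_I' {C1 : ℕ} (hPS : PS1At (k + 1) C1) (hTn : Tents) (hRC : RootsCount) (hSd : SdLZ)
    (hS1P : S1Parts) (hS1G : S1Gen) (H : Hyp α h D D' N v P) (Q : SPar) (ρ ε l c₀ : ℝ)
    (b A1 J a₁ a₂ : ℕ)
    (m3 : ℕ) (hρ : 0 < ρ) (hρ1 : ρ ≤ 1 / 16) (hε : 0 < ε) (hε1 : ε < 1 / 3) (hI2 : 0 < Q.I2)
    (hl : l = Real.log N) (hl1 : 1 ≤ l) (hN : 16 ≤ N) (hc₀ : 1 / 8 ≤ c₀) (hc₁ : c₀ ≤ 1 / 4)
    (hb : C1 ≤ b) (hCD : C1 ≤ D) (hβ : (1 / 2 : ℝ) ^ b ≤ ε / 8)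
    (hJD : D' ≤ 2 ^ 2 ^ J)
    (hJ : ((2 : ℝ) ^ 2 ^ J) ≤ l ^ a₁ ∧ ((J : ℝ) + 2) ≤ l ^ a₂)
    (hm3 : ∏ t : IP P, (1 + 3 * ((k + 1 : ℕ) : ℝ) / (prP P t : ℝ)) ≤ l ^ m3)
    (hpoly : (16 / (ε / 400)) * (Real.log N) ^ (a₂ + 2 * a₁ * (C1 * b) + 1 + 2 * m3 + A1) *
      (N : ℝ) ^ (49 / 24 * ρ) ≤ (N : ℝ) ^ (1 : ℝ))
    (hS : Sums Q D' ε (k + 1) (ρ * l) (ρ * l / 48) P)
    (Z : ℝ) (hZ : Z = ZZ k (VV α h N D D') (ε / 400 * (c₀ * N)) (WW D) (BD D') (ρ * l))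
    (hErr : N / l ^ A1 ≤ Z / l) (hlA : 2 / (ε * ((1 / 3 + ε) * (Q.I2 + ε) ^ k)) ≤ l) :
    ∑ n ∈ Ns α h D D' N v N, lt (c₀ * N) (ε / 400 * (c₀ * N)) n *
      (wZ Q (uB α) (wB h N) P (ρ * l) n) ^ 2 ≤ Z * Ac Q k ε := by
  have hNR : (16 : ℝ) ≤ N := by exact_mod_cast hN
  have hN0 : (0 : ℝ) < N := by linarith
  have hl0 : 0 < l := by linarith
  have hL : 0 < ρ * l := by positivity
  have hκ : 0 < ε / 400 := by positivity
  have hκ1 : ε / 400 ≤ 1 / 64 := by linarith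
  have hn0p : 0 < c₀ * N := by positivity
  have hn2 : 2 ≤ c₀ * N := by nlinarith
  have hnN : c₀ * N ≤ N / 4 := by nlinarith
  have hexp : Real.exp (4 * (ε / 400)) ≤ 2 := by
    have h2 : 4 * (ε / 400) ≤ 1 / 2 := by linarith
    calc Real.exp (4 * (ε / 400)) ≤ Real.exp (1 / 2) := Real.exp_le_exp.2 h2
      _ ≤ 2 := by
        have := Real.exp_one_lt_d9
        have h3 : Real.exp (1 / 2) ^ 2 = Real.exp 1 := by
          rw [← Real.exp_nat_mul]; norm_num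
        by_contra hc
        have h4 : (2 : ℝ) ^ 2 < Real.exp (1 / 2) ^ 2 :=
          pow_lt_pow_left₀ (not_le.1 hc) (by norm_num) (by norm_num)
        rw [h3] at h4
        norm_num at h4
        linarith
  have hexp' : 1 / 2 ≤ Real.exp (-(4 * (ε / 400))) := by
    rw [Real.exp_neg, one_div]
    exact inv_anti₀ (Real.exp_pos _) hexp
  have hx1 : 1 ≤ c₀ * N * Real.exp (-(4 * (ε / 400))) := by
    calc (1 : ℝ) ≤ c₀ * N * (1 / 2) := by linarith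
      _ ≤ _ := mul_le_mul_of_nonneg_left hexp' hn0p.le
  have hx2 : c₀ * N * Real.exp (4 * (ε / 400)) ≤ N := by
    calc c₀ * N * Real.exp (4 * (ε / 400)) ≤ c₀ * N * 2 :=
          mul_le_mul_of_nonneg_left hexp hn0p.le
      _ ≤ _ := by linarith
  have hx3 : 1 ≤ c₀ * N * Real.exp (4 * (ε / 400)) := by
    have := Real.one_le_exp (by positivity : 0 ≤ 4 * (ε / 400))
    nlinarith
  have hBD := BD_pos D'
  have hS1 := hS1P Q k D' ε (ρ * l) P hε hL hI2 hBD H.hP hS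
  have hsd := H.sd0 hSd
  have hI := est_I hPS hTn hRC hSd (fun c => (s1g_nonneg hS1G hsd c).1) H Q (ρ * l) (ε / 400)
    (Real.exp (ρ * l / 48 + ρ * l) *
      ∏ t : IP P, (1 + 3 * ((k + 1 : ℕ) : ℝ) / (prP P t : ℝ))) b J hb hCD hJD hκ hκ1
    hn0p rfl hx1 hx2 hS1.2
  have hprod0 : 0 ≤ ∏ t : IP P, (1 + 3 * ((k + 1 : ℕ) : ℝ) / (prP P t : ℝ)) :=
    Finset.prod_nonneg fun t _ => by positivity
  have hEs := E1_small' N A1 C1 b m3 J a₁ a₂ ρ (ε / 400) l (Real.exp (ρ * l / 48 + ρ * l) *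
      ∏ t : IP P, (1 + 3 * ((k + 1 : ℕ) : ℝ) / (prP P t : ℝ))) (c₀ * N) hl hl1 (by omega) hκ
    hJ.1 hJ.2 (by gcongr) (by positivity) hx3 hx2 hpoly
  have hQ1 := (s1g_nonneg hS1G hsd (cw (prP P) (yP Q k P (ρ * l)))).2.trans hS1.1
  have hQ0 := (s1g_nonneg hS1G hsd (cw (prP P) (yP Q k P (ρ * l)))).1
  have hW : (0 : ℝ) < WW D := by exact_mod_cast H.hW
  have hV := VV_pos hRC H
  set A0c : ℝ := (1 / 3 + ε) * (Q.I2 + ε) ^ k with hA0c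
  have hA0cp : 0 < A0c := by
    rw [hA0c]
    positivity
  have hmain : VV α h N D D' * (ε / 400 * (c₀ * N)) / WW D *
        Q1f (prP P) (cw (prP P) (yP Q k P (ρ * l))) ≤ Z * A0c := by
    have e : Z * A0c = VV α h N D D' * (ε / 400 * (c₀ * N)) / WW D *
        ((BD D' * (ρ * l / 48) * (1 / 3 + ε)) *
          (BD D' * (ρ * l) * (Q.I2 + ε)) ^ k) := by
      rw [hZ, hA0c]
      unfold ZZ
      rw [mul_pow (BD D' * (ρ * l)) (Q.I2 + ε) k]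
      ring
    rw [e]
    apply mul_le_mul_of_nonneg_left hQ1
    positivity
  have hZ0 : 0 < Z := by
    rw [hZ]
    unfold ZZ
    positivity
  have hZA : 0 < Z * A0c := by positivity
  have hβ0 : 0 ≤ (1 / 2 : ℝ) ^ b := by positivity
  have hcoef : (1 + (1 / 2 : ℝ) ^ b) * (1 + 25 * (ε / 400)) ≤ 1 + ε / 2 := by
    nlinarith [mul_nonneg hβ0 hε.le]
  have herr : (N : ℝ) / l ^ A1 ≤ ε / 2 * (Z * A0c) := by
    refine hErr.trans ?_
    rw [div_le_iff₀ hl0]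
    rw [div_le_iff₀ (by positivity)] at hlA
    have h1 : Z * 2 ≤ Z * (l * (ε * A0c)) := mul_le_mul_of_nonneg_left hlA hZ0.le
    linarith
  have hM0 : 0 ≤ VV α h N D D' * (ε / 400 * (c₀ * N)) / WW D *
        Q1f (prP P) (cw (prP P) (yP Q k P (ρ * l))) := by positivity
  calc _ ≤ (1 + (1 / 2 : ℝ) ^ b) * (1 + 25 * (ε / 400)) * (VV α h N D D' *
        (ε / 400 * (c₀ * N)) / WW D * Q1f (prP P) (cw (prP P) (yP Q k P (ρ * l)))) +
        N / l ^ A1 := by linarith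
    _ ≤ (1 + ε / 2) * (Z * A0c) + ε / 2 * (Z * A0c) := by
        have h1 : (1 + (1 / 2 : ℝ) ^ b) * (1 + 25 * (ε / 400)) * (VV α h N D D' *
            (ε / 400 * (c₀ * N)) / WW D * Q1f (prP P) (cw (prP P) (yP Q k P (ρ * l)))) ≤
            (1 + ε / 2) * (Z * A0c) := mul_le_mul hcoef hmain hM0 (by linarith)
        linarith
    _ = Z * Ac Q k ε := by
        unfold Ac
        rw [hA0c]
        ring

theorem PB_spec (α h : Fin k → ℤ) (N B : ℕ) (ρ₁ : ℝ) (hρ₁ : ρ₁ ≤ 1 / 4) (hN : 1 ≤ N) :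
    ∀ p ∈ PB α h N B ρ₁, p.Prime ∧ DB (2 * N) B < p ∧ p ∉ CL (uB α) (wB h N) ∧
      (p : ℝ) ≤ Real.exp (ρ₁ * Real.log N) ∧ (p : ℝ) ≤ N := by
  intro p hp
  unfold PB at hp
  rw [Finset.mem_filter, Finset.mem_Icc] at hp
  have h1 : (p : ℝ) ≤ Real.exp (ρ₁ * Real.log N) :=
    (Nat.cast_le.2 hp.1.2).trans (Nat.floor_le (Real.exp_pos _).le)
  refine ⟨hp.2.1, by omega, hp.2.2, h1, h1.trans ?_⟩
  have hN0 : (0 : ℝ) < N := by exact_mod_cast hN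
  have h0 := Real.log_nonneg (by exact_mod_cast hN : (1 : ℝ) ≤ N)
  have h2 : ρ₁ * Real.log N ≤ Real.log N := by nlinarith
  calc Real.exp (ρ₁ * Real.log N) ≤ Real.exp (Real.log N) := Real.exp_le_exp.2 h2
    _ = N := Real.exp_log hN0

theorem main (hPS1 : PS1) (hTn : Tents) (hRC : RootsCount) (hSd : SdLZ) (hCC : CLcard)
    (hS1P : S1Parts) (hWF : WFacts) (hVL : VLow) (hS1G : S1Gen) (hSUM : St_SUM) : St_TWa := by
  classical
  intro k Q ρ ρ₁ ε B hk hρ hρ1 hρρ hρ₁ hε hε1 hI1 hI2 hB α h hα1 hdist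
  have hα : ∀ i, α i ≠ 0 := fun i => by
    rcases hα1 i with h1 | h1 <;> rw [h1] <;> norm_num
  have hρlt : ρ < ρ₁ := by linarith
  obtain ⟨C1, hC1, hPS1⟩ := ps1At_of hPS1 (k + 1)
  obtain ⟨DW, hWF⟩ := hWF
  obtain ⟨C', hCC⟩ := hCC k α h hα hdist
  obtain ⟨b0, hb0⟩ := exists_pow_lt_of_lt_one (by positivity : 0 < ε / 8)
    (by norm_num : (1 / 2 : ℝ) < 1)
  obtain ⟨b, hb1, hβ⟩ : ∃ b : ℕ, C1 ≤ b ∧ (1 / 2 : ℝ) ^ b ≤ ε / 8 :=
    ⟨b0 + C1, by omega, by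
      refine le_trans ?_ hb0.le
      exact pow_le_pow_of_le_one (by norm_num) (by norm_num) (by omega)⟩
  obtain ⟨m3, hm3⟩ := prods_le (3 * ((k + 1 : ℕ) : ℝ)) (by positivity)
  have hI2p : 0 < Q.I2 := hε.trans hI2
  refine ⟨DW + C1 + 2 * (k + 1) + 1, fun D hD c₀ hc₀ hc₁ => ?_⟩
  obtain ⟨hW, htot, hBDp, hdvd, -⟩ := hWF D (by omega)
  have hWR : (0 : ℝ) < WW D := by exact_mod_cast hW
  have hc₀p : 0 < c₀ := by linarith
  filter_upwards [hCC, hSUM Q (k + 1) ε ρ ρ₁ C' B hε hρ hρlt hB,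
    ev_DB B (by omega) (D + 1), Jb_up B (by omega), DB_up B, hm3,
    ev_poly (16 / (ε / 400)) ((2 * B + 2) + 2 * (2 * B + 1) * (C1 * b) + 1 + 2 * m3 +
      ((3 * B + 2) * (k + 1) + 2)) (49 / 24 * ρ) 1 (by linarith),
    ev_log 1, ev_log (2 ^ B), ev_log (48 * WW D / (ε / 400 * c₀ * ρ ^ (k + 1))),
    ev_log (2 / (ε * ((1 / 3 + ε) * (Q.I2 + ε) ^ k))), eventually_ge_atTop 16]
    with N hCC hsums hDp hJ hDup hm3 hpoly hl1 hl2 hl3 hl4 hN16 v hv Z hZ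
  have hN1 : 1 ≤ N := by omega
  have hNR : (16 : ℝ) ≤ N := by exact_mod_cast hN16
  have hl0 : 0 < Real.log N := by linarith
  have hPs := PB_spec α h N B ρ₁ hρ₁ hN1
  have hPle : ∀ p ∈ PB α h N B ρ₁, p.Prime ∧ (p : ℝ) ≤ N :=
    fun p hp => ⟨(hPs p hp).1, (hPs p hp).2.2.2.2⟩
  have hPD : ∀ p ∈ PB α h N B ρ₁, p.Prime ∧ DB (2 * N) B < p :=
    fun p hp => ⟨(hPs p hp).1, (hPs p hp).2.1⟩
  have H : Hyp α h D (DB (2 * N) B) N v (PB α h N B ρ₁) := {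
    hα := hα
    hW := hW
    tot := htot
    BDpos := hBDp
    hdvd := hdvd
    hDk := by omega
    hDα := fun i => by
      rcases hα1 i with h1 | h1 <;> rw [h1] <;> simp <;> omega
    hDD := by omega
    hP := hPD
    hres := fun p hp j l hjl => CL_ndvd hCC.1 (hPs p hp).1 (hPs p hp).2.2.1 j l hjl
    hv := hv }
  have hS1 := ((hsums (CL (uB α) (wB h N)) (PB α h N B ρ₁) hCC.2 hPD).1
    (fun p hp hDp' hple hpC => by
      unfold PB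
      rw [Finset.mem_filter, Finset.mem_Icc]
      exact ⟨⟨hDp', Nat.le_floor hple⟩, hp, hpC⟩)).2
  have hDp1 : 1 ≤ DB (2 * N) B := by omega
  have hVlow := hVL (k + 1) (DB (2 * N) B) (QQ D (DB (2 * N) B))
    (fun p => (Om (uB α) (wB h N) p).card) hDp1 (fun p hp => by
      have h1 := QQ_prime hp
      exact ⟨h1.1, by omega, h1.2.2,
        (hRC k (uB α) (wB h N) p h1.1 (fun j => H.uB_ndvd h1.1 h1.2.1 j)).2.1⟩)
  have hDl : (DB (2 * N) B : ℝ) ≤ (Real.log N) ^ (B + 1) := by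
    refine hDup.trans ?_
    rw [pow_succ, mul_comm]
    exact mul_le_mul_of_nonneg_left hl2 (by positivity)
  have hZlow : N / (Real.log N) ^ ((3 * B + 2) * (k + 1) + 1) ≤ Z := by
    rw [hZ]
    apply ZZ_low' k B (VV α h N D (DB (2 * N) B)) (ε / 400 * (c₀ * N)) (WW D)
      (BD (DB (2 * N) B)) (ρ * Real.log N) (ε / 400 * c₀) (Real.log N) N (DB (2 * N) B) ρ hl1
      hWR hρ rfl
    · exact_mod_cast hDp1
    · exact hDl
    · exact hVlow.1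
    · exact hVlow.2
    · ring
    · positivity
    · positivity
    · exact hl3
  have hErr : N / (Real.log N) ^ ((3 * B + 2) * (k + 1) + 2) ≤ Z / Real.log N := by
    have e1 : (N : ℝ) / (Real.log N) ^ ((3 * B + 2) * (k + 1) + 2) =
        N / (Real.log N) ^ ((3 * B + 2) * (k + 1) + 1) / Real.log N := by
      rw [div_div, ← pow_succ]
    rw [e1]
    exact div_le_div_of_nonneg_right hZlow (by linarith)
  exact fix_I' hPS1 hTn hRC hSd hS1P hS1G H Q ρ ε (Real.log N) c₀ b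
    ((3 * B + 2) * (k + 1) + 2) (Jb N B) (2 * B + 1) (2 * B + 2) m3 hρ hρ1 hε hε1 hI2p rfl hl1
    hN16 hc₀ hc₁ hb1 (by omega) hβ (Jb_le N B) hJ (hm3 (PB α h N B ρ₁) hPle) hpoly hS1 Z hZ
    hErr hl4

end Pool.Agent.W22.UB
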